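import Pool.Agent.Helper34.EC.Defs

/-!
# Project EC, module EC-A1: filtered algebras are domains; base change
-/

set_option autoImplicit false

namespace Pool.Agent.Helper68.EC

open Polynomial TensorProduct Pool.Agent.Helper34.EC

section A

variable {F A : Type} [Field F] [CommRing A] [Algebra F A] {g : ℕ}

/-- The elements of order less than `N`. -/
def lowU (P : Filt F A g) (N : ℕ) : Submodule F A :=
  Submodule.span F (P.e '' {l | (l : ℕ) < N})

theorem lowU_mono (P : Filt F A g) {M N : ℕ} (h : M ≤ N) : lowU P M ≤ lowU P N :=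
  Submodule.span_mono (Set.image_mono fun _ hl => lt_of_lt_of_le hl h)

theorem e_mem_lowU (P : Filt F A g) (l : P.H) {N : ℕ} (h : (l : ℕ) < N) : P.e l ∈ lowU P N :=
  Submodule.subset_span ⟨l, h, rfl⟩

theorem e_notMem_lowU (P : Filt F A g) (l : P.H) : P.e l ∉ lowU P l := by
  intro h
  have h1 := (P.e.self_mem_span_image (i := l) (s := {l' | (l' : ℕ) < l})).1 h
  exact absurd h1 (lt_irrefl (l : ℕ))

theorem e_mul_mem (P : Filt F A g) (i j : P.H) {N : ℕ} (h : (i : ℕ) + j < N) :
    P.e i * P.e j ∈ lowU P N := by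
  have h1 : P.e i * P.e j - P.e ⟨i + j, P.add_mem i.2 j.2⟩ ∈ lowU P ((i : ℕ) + j) := P.mul i j
  have h2 : P.e ⟨i + j, P.add_mem i.2 j.2⟩ ∈ lowU P N := e_mem_lowU P _ h
  have h3 := add_mem (lowU_mono P h.le h1) h2
  rwa [sub_add_cancel] at h3

theorem mul_mem_lowU (P : Filt F A g) {M N : ℕ} {x y : A} (hx : x ∈ lowU P M)
    (hy : y ∈ lowU P (N + 1)) : x * y ∈ lowU P (M + N) := by
  unfold lowU at hx
  induction hx using Submodule.span_induction with
  | mem x hx =>
    obtain ⟨i, hi, rfl⟩ := hx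
    unfold lowU at hy
    induction hy using Submodule.span_induction with
    | mem y hy =>
      obtain ⟨j, hj, rfl⟩ := hy
      refine e_mul_mem P i j ?_
      have hi' : (i : ℕ) < M := hi
      have hj' : (j : ℕ) < N + 1 := hj
      omega
    | zero => rw [mul_zero]; exact zero_mem _
    | add y y' _ _ h h' => rw [mul_add]; exact add_mem h h'
    | smul c y _ h => rw [mul_smul_comm]; exact Submodule.smul_mem _ _ h
  | zero => rw [zero_mul]; exact zero_mem _
  | add x x' _ _ h h' => rw [add_mul]; exact add_mem h h'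
  | smul c x _ h => rw [smul_mul_assoc]; exact Submodule.smul_mem _ _ h

/-- Every nonzero element has a leading term. -/
theorem exists_lead (P : Filt F A g) {a : A} (ha : a ≠ 0) :
    ∃ (m : P.H) (c : F), c ≠ 0 ∧ a - c • P.e m ∈ lowU P m := by
  classical
  have hs : (P.e.repr a).support.Nonempty := by
    rw [Finsupp.support_nonempty_iff]
    intro h
    exact ha ((LinearEquiv.map_eq_zero_iff P.e.repr).1 h)
  obtain ⟨m, hm, hmax⟩ := Finset.exists_max_image (P.e.repr a).support (fun l => (l : ℕ)) hs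
  refine ⟨m, P.e.repr a m, Finsupp.mem_support_iff.1 hm, ?_⟩
  unfold lowU
  rw [Module.Basis.mem_span_image]
  intro l hl
  have h1 : P.e.repr (a - P.e.repr a m • P.e m) l ≠ 0 :=
    Finsupp.mem_support_iff.1 (Finset.mem_coe.1 hl)
  rw [map_sub, map_smul, Module.Basis.repr_self, Finsupp.sub_apply, Finsupp.smul_apply] at h1
  by_cases hlm : m = l
  · subst hlm
    exact absurd (by simp) h1
  · rw [Finsupp.single_eq_of_ne (Ne.symm hlm), smul_zero, sub_zero] at h1
    have h2 := hmax l (Finsupp.mem_support_iff.2 h1)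
    exact lt_of_le_of_ne h2 fun h => hlm (Subtype.ext h.symm)

/-- EC-A1 -/
theorem isDomain_of_filt (P : Filt F A g) : IsDomain A := by
  have hnt : Nontrivial A := by
    refine ⟨⟨P.e ⟨0, P.zero_mem⟩, 0, P.e.ne_zero _⟩⟩
  have hnz : NoZeroDivisors A := by
    refine ⟨fun {a b} hab => ?_⟩
    by_contra hne
    rw [not_or] at hne
    obtain ⟨ha, hb⟩ := hne
    obtain ⟨m, c, hc, hm⟩ := exists_lead P ha
    obtain ⟨n, d, hd, hn⟩ := exists_lead P hb
    have hb' : b ∈ lowU P ((n : ℕ) + 1) := by
      have h1 : d • P.e n ∈ lowU P ((n : ℕ) + 1) :=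
        Submodule.smul_mem _ _ (e_mem_lowU P n (Nat.lt_succ_self _))
      have h2 := add_mem (lowU_mono P (Nat.le_succ _) hn) h1
      rwa [sub_add_cancel] at h2
    have h1 : (a - c • P.e m) * b ∈ lowU P ((m : ℕ) + n) := mul_mem_lowU P hm hb'
    have h2 : (b - d • P.e n) * P.e m ∈ lowU P ((n : ℕ) + m) :=
      mul_mem_lowU P hn (e_mem_lowU P m (Nat.lt_succ_self _))
    have h3 : P.e m * P.e n - P.e ⟨m + n, P.add_mem m.2 n.2⟩ ∈ lowU P ((m : ℕ) + n) :=
      P.mul m n
    rw [add_comm (n : ℕ) m] at h2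
    have h4 : (c * d) • P.e ⟨m + n, P.add_mem m.2 n.2⟩ ∈ lowU P ((m : ℕ) + n) := by
      have h5 := sub_mem (sub_mem (sub_mem (Submodule.zero_mem _) h1)
        (Submodule.smul_mem _ c h2)) (Submodule.smul_mem _ (c * d) h3)
      have h6 : 0 - (a - c • P.e m) * b - c • ((b - d • P.e n) * P.e m) -
          (c * d) • (P.e m * P.e n - P.e ⟨m + n, P.add_mem m.2 n.2⟩) =
          (c * d) • P.e ⟨m + n, P.add_mem m.2 n.2⟩ - a * b := by
        simp only [Algebra.smul_def, map_mul]
        ring
      rw [h6, hab, sub_zero] at h5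
      exact h5
    have h7 := Submodule.smul_mem _ (c * d)⁻¹ h4
    rw [smul_smul, inv_mul_cancel₀ (mul_ne_zero hc hd), one_smul] at h7
    exact e_notMem_lowU P ⟨m + n, P.add_mem m.2 n.2⟩ h7
  exact NoZeroDivisors.to_isDomain A

/-- EC-A1 -/
theorem exists_filt_bc (P : Filt F A g) (Ω : Type) [Field Ω] [Algebra F Ω] :
    ∃ Q : Filt Ω (Ω ⊗[F] A) g, ∀ M, Q.V M = (P.V M).baseChange Ω := by
  have key : ∀ s : Set P.H, Submodule.span Ω (P.e.baseChange Ω '' s) =
      (Submodule.span F (P.e '' s)).baseChange Ω := by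
    intro s
    rw [Submodule.baseChange_span, Set.image_image]
    congr 1
    refine Set.image_congr fun l _ => ?_
    rw [Module.Basis.baseChange_apply]
    rfl
  refine ⟨{ H := P.H
            e := P.e.baseChange Ω
            zero_mem := P.zero_mem
            add_mem := P.add_mem
            one := ?_
            mul := ?_
            gaps := P.gaps }, fun M => key _⟩
  · rw [Module.Basis.baseChange_apply, P.one]
    rfl
  · intro i j
    rw [key, Module.Basis.baseChange_apply, Module.Basis.baseChange_apply,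
      Module.Basis.baseChange_apply, Algebra.TensorProduct.tmul_mul_tmul, mul_one,
      ← TensorProduct.tmul_sub]
    exact Submodule.tmul_mem_baseChange_of_mem _ (P.mul i j)

end A

end Pool.Agent.Helper68.EC
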